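import Pool.Agent.Y727.FG.Stm

/-!
# Basic facts on matrices near a doubly stochastic idempotent
-/

set_option autoImplicit false

namespace Pool.Agent.Y505.FG

open Finset Pool.Agent.Y727.FG

variable {n : ℕ} {E B : Matrix (Fin n) (Fin n) ℝ} {δ : ℝ}

/-- Doubly stochastic with the class structure. -/
structure Cl (E : Matrix (Fin n) (Fin n) ℝ) : Prop where
  ds : DS E
  sym : ∀ i j, E i j = E j i
  pos : ∀ i, 0 < E i i
  cl : ∀ i j, E i j ≠ 0 → E i j = E i i ∧ E j j = E i i ∧ ∀ k, E i k = E j k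

lemma Cl.of (h : S_idem) (hE : DS E) (h2 : E * E = E) : Cl E :=
  ⟨hE, (h n E hE h2).1, (h n E hE h2).2.1, (h n E hE h2).2.2⟩

lemma Cl.one_le (h : Cl E) (i : Fin n) : 1 ≤ n * E i i := by
  have h1 := h.ds.2.1 i
  rw [← h1]
  calc ∑ j, E i j ≤ ∑ _j : Fin n, E i i := by
        apply sum_le_sum
        intro j _
        by_cases hj : E i j = 0
        · rw [hj]; exact (h.pos i).le
        · exact (h.cl i j hj).1.le
    _ = n * E i i := by simp

lemma DS.le_one (h : DS E) (i j : Fin n) : E i j ≤ 1 := by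
  have h1 := h.2.1 i
  rw [← h1]
  exact single_le_sum (f := fun j => E i j) (fun j _ => h.1 i j) (mem_univ j)

lemma mem_Yg {σ : Equiv.Perm (Fin n)} : σ ∈ Yg E ↔ ∀ i, E i (σ i) ≠ 0 := by
  unfold Yg
  simp

lemma perm_eq (B : Matrix (Fin n) (Fin n) ℝ) :
    B.permanent = ∑ σ : Equiv.Perm (Fin n), ∏ i, B i (σ i) := by
  rw [← Matrix.permanent_transpose]
  rfl

lemma perm_E (h : Cl E) : E.permanent = (∏ i, E i i) * ((Yg E).card : ℝ) := by
  rw [perm_eq]
  have h1 : ∑ σ : Equiv.Perm (Fin n), ∏ i, E i (σ i) = ∑ σ ∈ Yg E, ∏ i, E i (σ i) := by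
    symm
    apply sum_subset (subset_univ _)
    intro σ _ hσ
    rw [mem_Yg] at hσ
    push Not at hσ
    obtain ⟨i, hi⟩ := hσ
    exact prod_eq_zero (mem_univ i) hi
  rw [h1]
  have h2 : ∀ σ ∈ Yg E, ∏ i, E i (σ i) = ∏ i, E i i := by
    intro σ hσ
    rw [mem_Yg] at hσ
    apply prod_congr rfl
    intro i _
    exact (h.cl i (σ i) (hσ i)).1
  rw [sum_congr rfl h2, sum_const, nsmul_eq_mul, mul_comm]

lemma one_mem (h : Cl E) : (1 : Equiv.Perm (Fin n)) ∈ Yg E := by
  rw [mem_Yg]
  intro i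
  exact (h.pos i).ne'

lemma prod_pos' (h : Cl E) : 0 < ∏ i, E i i := prod_pos fun i _ => h.pos i

lemma card_pos' (h : Cl E) : 0 < ((Yg E).card : ℝ) := by
  have : 0 < (Yg E).card := card_pos.2 ⟨1, one_mem h⟩
  exact_mod_cast this

lemma perm_pos (h : Cl E) : 0 < E.permanent := by
  rw [perm_E h]
  exact mul_pos (prod_pos' h) (card_pos' h)

/-- The relative deviation. -/
noncomputable def V (E B : Matrix (Fin n) (Fin n) ℝ) (i j : Fin n) : ℝ := B i j / E i i - 1

/-- The mass of a row outside the support. -/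
noncomputable def ra (E B : Matrix (Fin n) (Fin n) ℝ) (i : Fin n) : ℝ :=
  by classical exact ∑ j, if E i j = 0 then B i j else 0

/-- The mass of a column outside the support. -/
noncomputable def cb (E B : Matrix (Fin n) (Fin n) ℝ) (j : Fin n) : ℝ :=
  by classical exact ∑ i, if E i j = 0 then B i j else 0

lemma sum_ra : ∑ i, ra E B i = sm E B := rfl

lemma sum_cb : ∑ j, cb E B j = sm E B := by
  unfold cb sm
  exact sum_comm

lemma ra_nonneg (hB : DS B) (i : Fin n) : 0 ≤ ra E B i := by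
  unfold ra
  apply sum_nonneg
  intro j _
  split_ifs
  · exact hB.1 i j
  · exact le_rfl

lemma cb_nonneg (hB : DS B) (j : Fin n) : 0 ≤ cb E B j := by
  unfold cb
  apply sum_nonneg
  intro i _
  split_ifs
  · exact hB.1 i j
  · exact le_rfl

lemma sm_nonneg (hB : DS B) : 0 ≤ sm E B := by
  rw [← sum_ra]
  exact sum_nonneg fun i _ => ra_nonneg hB i

lemma qm_nonneg (hE : DS E) : 0 ≤ qm E B := by
  unfold qm
  exact sum_nonneg fun i _ => sum_nonneg fun j _ => mul_nonneg (hE.1 i j) (sq_nonneg _)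

lemma ra_le (hd : ∀ i j, |B i j - E i j| ≤ δ) (hδ : 0 ≤ δ) (i : Fin n) : ra E B i ≤ n * δ := by
  unfold ra
  calc _ ≤ ∑ _j : Fin n, δ := by
        apply sum_le_sum
        intro j _
        split_ifs with h0
        · have := hd i j
          rw [h0, sub_zero] at this
          exact (le_abs_self _).trans this
        · exact hδ
    _ = n * δ := by simp

lemma cb_le (hd : ∀ i j, |B i j - E i j| ≤ δ) (hδ : 0 ≤ δ) (j : Fin n) : cb E B j ≤ n * δ := by
  unfold cb
  calc _ ≤ ∑ _i : Fin n, δ := by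
        apply sum_le_sum
        intro i _
        split_ifs with h0
        · have := hd i j
          rw [h0, sub_zero] at this
          exact (le_abs_self _).trans this
        · exact hδ
    _ = n * δ := by simp

lemma sm_le (hd : ∀ i j, |B i j - E i j| ≤ δ) (hδ : 0 ≤ δ) : sm E B ≤ n * (n * δ) := by
  rw [← sum_ra]
  calc _ ≤ ∑ _i : Fin n, (n * δ) := sum_le_sum fun i _ => ra_le hd hδ i
    _ = _ := by simp

lemma V_le (h : Cl E) (hd : ∀ i j, |B i j - E i j| ≤ δ) (hδ : 0 ≤ δ) {i j : Fin n}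
    (hij : E i j ≠ 0) : |V E B i j| ≤ n * δ := by
  unfold V
  have hp := h.pos i
  have h1 : B i j / E i i - 1 = (B i j - E i j) / E i i := by
    rw [(h.cl i j hij).1]
    field_simp
  rw [h1, abs_div, abs_of_pos hp, div_le_iff₀ hp]
  have h2 := h.one_le i
  nlinarith [hd i j]

lemma row_V (h : Cl E) (hB : DS B) (i : Fin n) : ∑ j, E i j * V E B i j = - ra E B i := by
  classical
  have h1 : ∑ j, E i j * V E B i j + ra E B i = ∑ j, (B i j - E i j) := by
    unfold ra V
    rw [← sum_add_distrib]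
    apply sum_congr rfl
    intro j _
    by_cases hj : E i j = 0
    · rw [hj]; simp
    · have hp := (h.pos i).ne'
      rw [if_neg hj, (h.cl i j hj).1]
      field_simp
      ring
  rw [sum_sub_distrib, hB.2.1, h.ds.2.1] at h1
  linarith

lemma col_V (h : Cl E) (hB : DS B) (j : Fin n) : ∑ i, E i j * V E B i j = - cb E B j := by
  classical
  have h1 : ∑ i, E i j * V E B i j + cb E B j = ∑ i, (B i j - E i j) := by
    unfold cb V
    rw [← sum_add_distrib]
    apply sum_congr rfl
    intro i _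
    by_cases hj : E i j = 0
    · rw [hj]; simp
    · have hp := (h.pos i).ne'
      rw [if_neg hj, (h.cl i j hj).1]
      field_simp
      ring
  rw [sum_sub_distrib, hB.2.2, h.ds.2.2] at h1
  linarith

lemma qm_eq : qm E B = ∑ i, ∑ j, E i j * V E B i j ^ 2 := rfl

/-- The products over the Young subgroup. -/
lemma prod_V (h : Cl E) (σ : Equiv.Perm (Fin n)) :
    ∏ i, B i (σ i) = (∏ i, E i i) * ∏ i, (1 + V E B i (σ i)) := by
  rw [← prod_mul_distrib]
  apply prod_congr rfl
  intro i _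
  have hp := (h.pos i).ne'
  unfold V
  field_simp
  ring

end Pool.Agent.Y505.FG
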