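import Pool.Agent.Y505.FG.Base

/-!
# Lower bound of the permanent near a doubly stochastic idempotent
-/

set_option autoImplicit false

namespace Pool.Agent.Y505.FG

open Finset Pool.Agent.Y727.FG

variable {n : ℕ} {E B : Matrix (Fin n) (Fin n) ℝ} {δ : ℝ}

lemma dbl (h : Cl E) (hB : DS B) (i i' : Fin n) :
    ∑ a, ∑ b, E i a * E i' b * (V E B i a * V E B i' b) = ra E B i * ra E B i' := by
  have h1 : ∑ a, ∑ b, E i a * E i' b * (V E B i a * V E B i' b) =
      (∑ a, E i a * V E B i a) * ∑ b, E i' b * V E B i' b := by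
    rw [sum_mul_sum]
    apply sum_congr rfl
    intro a _
    apply sum_congr rfl
    intro b _
    ring
  rw [h1, row_V h hB, row_V h hB]
  ring

lemma term_lb (h : Cl E) (h2 : E * E = E) (ha : S_avg) (hB : DS B) {i i' : Fin n} (hne : i ≠ i') :
    -((Yg E).card : ℝ) * ∑ a, E i a * E i' a * (V E B i a * V E B i' a) ≤
      (1 - E i i) * ∑ σ ∈ Yg E, V E B i (σ i) * V E B i' (σ i') := by
  have hN := card_pos' h
  have hA := ha n E h.ds h2
  have hpp : 0 ≤ ra E B i * ra E B i' := mul_nonneg (ra_nonneg hB i) (ra_nonneg hB i')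
  by_cases hii : E i i' = 0
  · have h0 : ∑ a, E i a * E i' a * (V E B i a * V E B i' a) = 0 := by
      apply sum_eq_zero
      intro a _
      by_cases h3 : E i a = 0
      · rw [h3]; ring
      · by_cases h4 : E i' a = 0
        · rw [h4]; ring
        · exfalso
          have e1 := (h.cl i a h3).2.2 i'
          have e2 := (h.cl i' a h4).2.2 i'
          have := (h.pos i').ne'
          apply this
          rw [e2, ← e1, hii]
    rw [h0, hA.2.1 i i' (fun a b => V E B i a * V E B i' b) hii, dbl h hB i i']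
    have h5 : 0 ≤ 1 - E i i := by linarith [DS.le_one h.ds i i]
    have := mul_nonneg h5 (mul_nonneg hN.le hpp)
    linarith
  · rw [hA.2.2 i i' (fun a b => V E B i a * V E B i' b) hne hii]
    have h3 : ∑ a, ∑ b ∈ univ.erase a, E i a * E i' b * (V E B i a * V E B i' b) =
        ra E B i * ra E B i' - ∑ a, E i a * E i' a * (V E B i a * V E B i' a) := by
      rw [← dbl h hB i i', ← sum_sub_distrib]
      apply sum_congr rfl
      intro a _
      rw [← sum_erase_add univ _ (mem_univ a)]
      ring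
    rw [h3]
    nlinarith [mul_nonneg hN.le hpp]

/-- The second order terms of a row. -/
lemma row_lb (h : Cl E) (h2 : E * E = E) (ha : S_avg) (hB : DS B)
    (hd : ∀ i j, |B i j - E i j| ≤ δ) (hδ : 0 ≤ δ) (i : Fin n) :
    ((Yg E).card : ℝ) * ((∑ j, E i j * V E B i j ^ 2) / n -
      2 * (n * δ) * ∑ a, E i a * cb E B a) ≤
      ∑ i' ∈ univ.erase i, ∑ σ ∈ Yg E, V E B i (σ i) * V E B i' (σ i') := by
  have hN := card_pos' h
  have hA := ha n E h.ds h2
  set N : ℝ := ((Yg E).card : ℝ) with hNdef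
  set T : ℝ := ∑ i' ∈ univ.erase i, ∑ σ ∈ Yg E, V E B i (σ i) * V E B i' (σ i') with hT
  set q : ℝ := ∑ j, E i j * V E B i j ^ 2 with hq
  set β : ℝ := ∑ a, E i a * cb E B a with hβ
  have hq0 : 0 ≤ q := sum_nonneg fun j _ => mul_nonneg (h.ds.1 i j) (sq_nonneg _)
  have hβ0 : 0 ≤ β := sum_nonneg fun j _ => mul_nonneg (h.ds.1 i j) (cb_nonneg hB j)
  have hn : (0 : ℝ) < n := by
    have : 0 < n := i.pos
    exact_mod_cast this
  have hn1 : (1 : ℝ) ≤ n := by
    have : 1 ≤ n := i.pos
    exact_mod_cast this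
  have hqn : q / n ≤ q * E i i := by
    rw [div_le_iff₀ hn]
    nlinarith [h.one_le i]
  have hnd : 0 ≤ n * δ := mul_nonneg hn.le hδ
  by_cases hex : ∃ j, j ≠ i ∧ E i j ≠ 0
  · obtain ⟨j, hji, hj⟩ := hex
    have hhalf : E i i ≤ 1 / 2 := by
      have h3 := h.ds.2.1 i
      have h4 : E i i + E i j ≤ ∑ k, E i k := by
        have h5 : ∑ k ∈ ({i, j} : Finset (Fin n)), E i k ≤ ∑ k, E i k :=
          sum_le_sum_of_subset_of_nonneg (subset_univ _) (fun k _ _ => h.ds.1 i k)
        rwa [sum_pair hji.symm] at h5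
      have h6 := (h.cl i j hj).1
      linarith
    have h3 : -N * ∑ i' ∈ univ.erase i, ∑ a, E i a * E i' a * (V E B i a * V E B i' a) ≤
        (1 - E i i) * T := by
      rw [hT, mul_sum, mul_sum]
      apply sum_le_sum
      intro i' hi'
      exact term_lb h h2 ha hB (ne_of_mem_erase hi').symm
    have h4 : ∑ i' ∈ univ.erase i, ∑ a, E i a * E i' a * (V E B i a * V E B i' a) =
        - ∑ a, E i a * V E B i a * cb E B a - E i i * q := by
      rw [sum_comm, hq, mul_sum, ← sum_neg_distrib, ← sum_sub_distrib]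
      apply sum_congr rfl
      intro a _
      have h5 : ∑ i' ∈ univ.erase i, E i' a * V E B i' a = - cb E B a - E i a * V E B i a := by
        have := col_V h hB a
        rw [← sum_erase_add univ _ (mem_univ i)] at this
        linarith
      have h6 : ∑ i' ∈ univ.erase i, E i a * E i' a * (V E B i a * V E B i' a) =
          E i a * V E B i a * ∑ i' ∈ univ.erase i, E i' a * V E B i' a := by
        rw [mul_sum]
        apply sum_congr rfl
        intro i' _
        ring
      rw [h6, h5]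
      by_cases h7 : E i a = 0
      · rw [h7]; ring
      · have h8 := (h.cl i a h7).1
        rw [h8]; ring
    have h5 : -(n * δ * β) ≤ ∑ a, E i a * V E B i a * cb E B a := by
      rw [hβ, mul_sum, ← sum_neg_distrib]
      apply sum_le_sum
      intro a _
      by_cases h7 : E i a = 0
      · rw [h7]; simp
      · have h8 := (abs_le.1 (V_le h hd hδ h7)).1
        have h9 := mul_nonneg (h.ds.1 i a) (cb_nonneg (E := E) hB a)
        nlinarith
    rw [h4] at h3
    have h6 : N * (E i i * q - n * δ * β) ≤ (1 - E i i) * T := by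
      nlinarith
    have hE0 := h.pos i
    have h7 : 0 < 1 - E i i := by linarith
    have h8 : (1 - E i i) * (N * (q / n - 2 * (n * δ) * β)) ≤ (1 - E i i) * T := by
      refine le_trans ?_ h6
      have h9 : (1 - E i i) * (q / n - 2 * (n * δ) * β) ≤ E i i * q - n * δ * β := by
        have h10 : 0 ≤ n * δ * β := mul_nonneg hnd hβ0
        have h11 : 0 ≤ q / n := div_nonneg hq0 hn.le
        nlinarith
      nlinarith
    exact le_of_mul_le_mul_left h8 h7
  · push Not at hex
    have hE1 : E i i = 1 := by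
      have h3 := h.ds.2.1 i
      rw [sum_eq_single i (fun j _ hj => hex j hj) (by simp)] at h3
      exact h3
    have hT0 : 0 ≤ T := by
      rw [hT]
      apply sum_nonneg
      intro i' hi'
      rw [hA.2.1 i i' (fun a b => V E B i a * V E B i' b) (hex i' (ne_of_mem_erase hi')),
        dbl h hB i i']
      exact mul_nonneg hN.le (mul_nonneg (ra_nonneg hB i) (ra_nonneg hB i'))
    have hb : V E B i i = - cb E B i := by
      have := col_V h hB i
      rw [sum_eq_single i (fun j _ hj => by rw [h.sym j i, hex j hj, zero_mul]) (by simp), hE1,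
        one_mul] at this
      exact this
    have hqv : q = V E B i i ^ 2 := by
      rw [hq, sum_eq_single i (fun j _ hj => by rw [hex j hj, zero_mul]) (by simp), hE1, one_mul]
    have hβv : β = cb E B i := by
      rw [hβ, sum_eq_single i (fun j _ hj => by rw [hex j hj, zero_mul]) (by simp), hE1, one_mul]
    have hV := V_le h hd hδ (h.pos i).ne'
    have h5 : q ≤ n * δ * β := by
      rw [hqv, hb, hβv]
      have h6 := cb_nonneg (E := E) hB i
      have h7 := cb_le hd hδ i
      nlinarith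
    have h8 : q / n - 2 * (n * δ) * β ≤ 0 := by
      have h10 : 0 ≤ n * δ * β := mul_nonneg hnd hβ0
      rw [hE1, mul_one] at hqn
      linarith
    have : N * (q / n - 2 * (n * δ) * β) ≤ 0 := mul_nonpos_of_nonneg_of_nonpos hN.le h8
    linarith

theorem t_low : S_idem → S_avg → S_tay → S_low := by
  intro hid hav htay n E hE h2
  have h := Cl.of hid hE h2
  obtain ⟨K, hK, hKt⟩ := htay n
  refine ⟨n * (1 + K) + 1, by positivity, ?_⟩
  intro B δ hB hnδ hd
  rcases Nat.eq_zero_or_pos n with hn | hn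
  · subst hn
    simp [sm, qm, Matrix.permanent]
  have hn' : (0 : ℝ) < n := by exact_mod_cast hn
  have hδ : 0 ≤ δ := (abs_nonneg _).trans (hd ⟨0, hn⟩ ⟨0, hn⟩)
  have hnd : 0 ≤ n * δ := mul_nonneg hn'.le hδ
  have hN := card_pos' h
  have hP := prod_pos' h
  have hA := hav n E h.ds h2
  -- nonneg terms
  have h3 : ∑ σ ∈ Yg E, ∏ i, B i (σ i) ≤ B.permanent := by
    rw [perm_eq]
    apply sum_le_sum_of_subset_of_nonneg (subset_univ _)
    intro σ _ _
    exact prod_nonneg fun i _ => hB.1 i (σ i)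
  refine le_trans ?_ h3
  rw [sum_congr rfl (fun σ _ => prod_V h σ), ← mul_sum, perm_E h, mul_assoc]
  apply mul_le_mul_of_nonneg_left _ hP.le
  have h4 : ∀ σ ∈ Yg E, 1 + ∑ i, V E B i (σ i) + 1 / 2 * ∑ i, ∑ j ∈ univ.erase i,
      V E B i (σ i) * V E B j (σ j) - K * (n * δ) * ∑ i, V E B i (σ i) ^ 2 ≤
      ∏ i, (1 + V E B i (σ i)) := by
    intro σ hσ
    rw [mem_Yg] at hσ
    have := hKt (fun i => V E B i (σ i)) (n * δ) (by linarith) (fun i => V_le h hd hδ (hσ i))
    have := (abs_le.1 this).1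
    linarith
  refine le_trans ?_ (sum_le_sum h4)
  rw [sum_sub_distrib, sum_add_distrib, sum_add_distrib, ← mul_sum, ← mul_sum]
  set N : ℝ := ((Yg E).card : ℝ) with hNdef
  have e0 : ∑ σ ∈ Yg E, (1 : ℝ) = N := by simp [hNdef]
  have e1 : ∑ σ ∈ Yg E, ∑ i, V E B i (σ i) = - N * sm E B := by
    rw [sum_comm, ← sum_ra, mul_sum]
    apply sum_congr rfl
    intro i _
    rw [hA.1 i (fun j => V E B i j), row_V h hB]
    ring
  have e2 : ∑ σ ∈ Yg E, ∑ i, V E B i (σ i) ^ 2 = N * qm E B := by
    rw [sum_comm, qm_eq, mul_sum]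
    apply sum_congr rfl
    intro i _
    rw [hA.1 i (fun j => V E B i j ^ 2)]
  have e3 : N * (qm E B / n - 2 * (n * δ) * sm E B) ≤
      ∑ σ ∈ Yg E, ∑ i, ∑ j ∈ univ.erase i, V E B i (σ i) * V E B j (σ j) := by
    rw [sum_comm]
    have h5 := sum_le_sum (s := univ) (fun i _ => row_lb h h2 hav hB hd hδ i)
    have h6 : ∑ i : Fin n, ((Yg E).card : ℝ) * ((∑ j, E i j * V E B i j ^ 2) / n -
        2 * (n * δ) * ∑ a, E i a * cb E B a) = N * (qm E B / n - 2 * (n * δ) * sm E B) := by
      rw [← mul_sum, sum_sub_distrib, ← sum_div, ← qm_eq, ← mul_sum]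
      have h7 : ∑ i, ∑ a, E i a * cb E B a = sm E B := by
        rw [sum_comm, ← sum_cb]
        apply sum_congr rfl
        intro a _
        rw [← sum_mul, hE.2.2, one_mul]
      rw [h7]
    rw [h6] at h5
    refine h5.trans (le_of_eq ?_)
    apply sum_congr rfl
    intro i _
    rw [sum_comm]
  rw [e0, e1, e2]
  have hq0 : 0 ≤ qm E B := qm_nonneg hE
  have hs0 : 0 ≤ sm E B := sm_nonneg hB
  have hd1 : 0 ≤ δ * (sm E B + qm E B) := mul_nonneg hδ (add_nonneg hs0 hq0)
  have key : 1 - sm E B + qm E B / (2 * n) - (n * (1 + K) + 1) * δ * (sm E B + qm E B) ≤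
      1 - sm E B + 1 / 2 * (qm E B / n - 2 * (n * δ) * sm E B) - K * (n * δ) * qm E B := by
    have h8 : qm E B / (2 * n) = 1 / 2 * (qm E B / n) := by
      field_simp
    rw [h8]
    have h9 : 0 ≤ n * δ * qm E B := mul_nonneg hnd hq0
    have h10 : 0 ≤ K * (n * δ * sm E B) := mul_nonneg hK.le (mul_nonneg hnd hs0)
    nlinarith
  calc N * (1 - sm E B + qm E B / (2 * n) - (n * (1 + K) + 1) * δ * (sm E B + qm E B))
      ≤ N * (1 - sm E B + 1 / 2 * (qm E B / n - 2 * (n * δ) * sm E B) - K * (n * δ) * qm E B) :=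
        mul_le_mul_of_nonneg_left key hN.le
    _ ≤ _ := by nlinarith

end Pool.Agent.Y505.FG
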