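import Pool.Agent.Y505.FG.Base

/-!
# Upper bound of the permanent of a product near a doubly stochastic idempotent
-/

set_option autoImplicit false

namespace Pool.Agent.Y505.FG

open Finset Pool.Agent.Y727.FG

variable {n : ℕ} {E B B' M : Matrix (Fin n) (Fin n) ℝ} {δ : ℝ}

lemma ds_mul (hB' : DS B') (hB : DS B) : DS (B' * B) := by
  refine ⟨fun i j => ?_, fun i => ?_, fun j => ?_⟩
  · rw [Matrix.mul_apply]
    exact sum_nonneg fun l _ => mul_nonneg (hB'.1 i l) (hB.1 l j)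
  · simp only [Matrix.mul_apply]
    rw [sum_comm, ← hB'.2.1 i]
    apply sum_congr rfl
    intro l _
    rw [← mul_sum, hB.2.1, mul_one]
  · simp only [Matrix.mul_apply]
    rw [sum_comm, ← hB.2.2 j]
    apply sum_congr rfl
    intro l _
    rw [← sum_mul, hB'.2.2, one_mul]

lemma mul_close (h2 : E * E = E) (hE : DS E) (hB' : DS B') (hd : ∀ i j, |B i j - E i j| ≤ δ)
    (hd' : ∀ i j, |B' i j - E i j| ≤ δ) (i j : Fin n) : |(B' * B) i j - E i j| ≤ 2 * δ := by
  have h1 : (B' * B) i j - E i j =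
      ∑ l, (B' i l * (B l j - E l j) + (B' i l - E i l) * E l j) := by
    have h3 : E i j = (E * E) i j := by rw [h2]
    rw [h3, Matrix.mul_apply, Matrix.mul_apply, ← sum_sub_distrib]
    apply sum_congr rfl
    intro l _
    ring
  rw [h1]
  refine (abs_sum_le_sum_abs _ _).trans ?_
  have h4 : ∑ l, (B' i l * δ + δ * E l j) = 2 * δ := by
    rw [sum_add_distrib, ← sum_mul, ← mul_sum, hB'.2.1, hE.2.2]
    ring
  rw [← h4]
  apply sum_le_sum
  intro l _
  refine (abs_add_le _ _).trans ?_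
  rw [abs_mul, abs_mul, abs_of_nonneg (hB'.1 i l), abs_of_nonneg (hE.1 l j)]
  exact add_le_add (mul_le_mul_of_nonneg_left (hd l j) (hB'.1 i l))
    (mul_le_mul_of_nonneg_right (hd' i l) (hE.1 l j))

lemma two_off (h : Cl E) {σ : Equiv.Perm (Fin n)} (hσ : σ ∉ Yg E) :
    ∃ i j, i ≠ j ∧ E i (σ i) = 0 ∧ E j (σ j) = 0 := by
  classical
  rw [mem_Yg] at hσ
  push Not at hσ
  obtain ⟨i, hi⟩ := hσ
  by_contra hcon
  push Not at hcon
  have h1 : ∀ j, j ≠ i → E j (σ j) ≠ 0 := fun j hj => hcon i j hj.symm hi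
  let C : Finset (Fin n) := univ.filter (fun j => E (σ i) j ≠ 0)
  have hC : ∀ j, j ∈ C ↔ E (σ i) j ≠ 0 := by intro j; simp [C]
  have hiC : i ∉ C := by
    rw [hC, h.sym, hi]
    simp
  have hsub : C.image σ ⊆ C := by
    intro k hk
    rw [mem_image] at hk
    obtain ⟨j, hj, rfl⟩ := hk
    have hji : j ≠ i := fun e => hiC (e ▸ hj)
    rw [hC] at hj ⊢
    rw [(h.cl _ _ hj).2.2]
    exact h1 j hji
  have heq : C.image σ = C := by
    apply eq_of_subset_of_card_le hsub
    rw [card_image_of_injective _ σ.injective]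
  have hmem : σ i ∈ C := by
    rw [hC]
    exact (h.pos _).ne'
  rw [← heq, mem_image] at hmem
  obtain ⟨j, hj, hji⟩ := hmem
  exact hiC (σ.injective hji ▸ hj)

lemma entry_le_sm (hM : DS M) {i j : Fin n} (hij : E i j = 0) : M i j ≤ sm E M := by
  classical
  rw [← sum_ra]
  have h1 : ra E M i ≤ ∑ i, ra E M i :=
    single_le_sum (f := fun i => ra E M i) (fun i _ => ra_nonneg hM i) (mem_univ i)
  refine le_trans ?_ h1
  unfold ra
  have h2 := single_le_sum (s := univ) (f := fun j => if E i j = 0 then M i j else 0)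
    (fun j _ => by split_ifs; exacts [hM.1 i j, le_rfl]) (mem_univ j)
  rw [if_pos hij] at h2
  exact h2

lemma perm_ub (h : Cl E) (hM : DS M) :
    M.permanent ≤ ∑ σ ∈ Yg E, ∏ i, M i (σ i) + (n.factorial : ℝ) * sm E M ^ 2 := by
  classical
  rw [perm_eq, ← sum_add_sum_compl (Yg E)]
  have h0 := sm_nonneg (E := E) hM
  have h1 : ∑ σ ∈ (Yg E)ᶜ, ∏ i, M i (σ i) ≤ ∑ _σ ∈ (Yg E)ᶜ, sm E M ^ 2 := by
    apply sum_le_sum
    intro σ hσ
    rw [mem_compl] at hσ
    obtain ⟨i, j, hij, hi, hj⟩ := two_off h hσ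
    rw [← mul_prod_erase univ _ (mem_univ i),
      ← mul_prod_erase (univ.erase i) _ (mem_erase.2 ⟨hij.symm, mem_univ j⟩)]
    have h3 : ∏ k ∈ (univ.erase i).erase j, M k (σ k) ≤ 1 :=
      prod_le_one (fun k _ => hM.1 _ _) (fun k _ => DS.le_one hM _ _)
    have h4 : 0 ≤ ∏ k ∈ (univ.erase i).erase j, M k (σ k) := prod_nonneg (fun k _ => hM.1 _ _)
    have h5 := entry_le_sm hM hi
    have h6 := entry_le_sm hM hj
    calc M i (σ i) * (M j (σ j) * ∏ k ∈ (univ.erase i).erase j, M k (σ k))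
        ≤ sm E M * (sm E M * 1) := by
          apply mul_le_mul h5 _ (mul_nonneg (hM.1 _ _) h4) h0
          exact mul_le_mul h6 h3 h4 h0
      _ = sm E M ^ 2 := by ring
  have h2 : ∑ _σ ∈ (Yg E)ᶜ, sm E M ^ 2 ≤ (n.factorial : ℝ) * sm E M ^ 2 := by
    rw [sum_const, nsmul_eq_mul]
    apply mul_le_mul_of_nonneg_right _ (sq_nonneg _)
    have h3 : (Yg E)ᶜ.card ≤ n.factorial := by
      have := card_le_univ (Yg E)ᶜ
      rwa [Fintype.card_perm, Fintype.card_fin] at this
    exact_mod_cast h3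
  linarith

lemma young_ub (h : Cl E) (h2 : E * E = E) (ha : S_avg) {K : ℝ} (hK : 0 < K)
    (hKt : ∀ (v : Fin n → ℝ) (ε : ℝ), ε ≤ 1 → (∀ i, |v i| ≤ ε) →
      |∏ i, (1 + v i) - (1 + ∑ i, v i + 1 / 2 * ∑ i, ∑ j ∈ univ.erase i, v i * v j)| ≤
        K * ε * ∑ i, v i ^ 2)
    (hM : DS M) (hd : ∀ i j, |M i j - E i j| ≤ δ) (hδ : 0 ≤ δ) (hnd : n * δ ≤ 1) :
    ∑ σ ∈ Yg E, ∏ i, M i (σ i) ≤ E.permanent * (1 - sm E M + (n + K) * qm E M) := by
  have hN := card_pos' h
  have hP := prod_pos' h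
  have hA := ha n E h.ds h2
  rw [sum_congr rfl (fun σ _ => prod_V h σ), ← mul_sum, perm_E h, mul_assoc]
  apply mul_le_mul_of_nonneg_left _ hP.le
  have h4 : ∀ σ ∈ Yg E, ∏ i, (1 + V E M i (σ i)) ≤
      1 + ∑ i, V E M i (σ i) + (n + K) * ∑ i, V E M i (σ i) ^ 2 := by
    intro σ hσ
    rw [mem_Yg] at hσ
    have h5 := hKt (fun i => V E M i (σ i)) (n * δ) hnd (fun i => V_le h hd hδ (hσ i))
    have h5 := (abs_le.1 h5).2
    have h6 : 0 ≤ ∑ i, V E M i (σ i) ^ 2 := sum_nonneg fun i _ => sq_nonneg _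
    have h7 : K * (n * δ) * ∑ i, V E M i (σ i) ^ 2 ≤ K * ∑ i, V E M i (σ i) ^ 2 := by
      apply mul_le_mul_of_nonneg_right _ h6
      nlinarith
    have h8 : 1 / 2 * ∑ i, ∑ j ∈ univ.erase i, V E M i (σ i) * V E M j (σ j) ≤
        n * ∑ i, V E M i (σ i) ^ 2 := by
      have h9 : ∑ i, ∑ j ∈ univ.erase i, V E M i (σ i) * V E M j (σ j) ≤
          ∑ i : Fin n, ∑ j : Fin n, (V E M i (σ i) ^ 2 + V E M j (σ j) ^ 2) := by
        apply sum_le_sum
        intro i _
        refine le_trans (sum_le_sum (g := fun j => V E M i (σ i) ^ 2 + V E M j (σ j) ^ 2) ?_) ?_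
        · intro j _
          nlinarith [sq_nonneg (V E M i (σ i) - V E M j (σ j)),
            sq_nonneg (V E M i (σ i)), sq_nonneg (V E M j (σ j))]
        · apply sum_le_sum_of_subset_of_nonneg (subset_univ _)
          intro j _ _
          nlinarith [sq_nonneg (V E M i (σ i)), sq_nonneg (V E M j (σ j))]
      have h10 : ∑ i : Fin n, ∑ j : Fin n, (V E M i (σ i) ^ 2 + V E M j (σ j) ^ 2) =
          2 * (n * ∑ i, V E M i (σ i) ^ 2) := by
        simp only [sum_add_distrib, sum_const, card_univ, Fintype.card_fin, nsmul_eq_mul,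
          ← mul_sum]
        ring
      linarith
    linarith
  refine (sum_le_sum h4).trans ?_
  rw [sum_add_distrib, sum_add_distrib, ← mul_sum]
  have e0 : ∑ σ ∈ Yg E, (1 : ℝ) = ((Yg E).card : ℝ) := by simp
  have e1 : ∑ σ ∈ Yg E, ∑ i, V E M i (σ i) = - ((Yg E).card : ℝ) * sm E M := by
    rw [sum_comm, ← sum_ra, mul_sum]
    apply sum_congr rfl
    intro i _
    rw [hA.1 i (fun j => V E M i j), row_V h hM]
    ring
  have e2 : ∑ σ ∈ Yg E, ∑ i, V E M i (σ i) ^ 2 = ((Yg E).card : ℝ) * qm E M := by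
    rw [sum_comm, qm_eq, mul_sum]
    apply sum_congr rfl
    intro i _
    rw [hA.1 i (fun j => V E M i j ^ 2)]
  rw [e0, e1, e2]
  apply le_of_eq
  ring

open Classical in
/-- Indicator of the complement of the support. -/
noncomputable def ch (E : Matrix (Fin n) (Fin n) ℝ) (i j : Fin n) : ℝ := if E i j = 0 then 1 else 0

lemma ch_nonneg (i j : Fin n) : 0 ≤ ch E i j := by
  unfold ch; split_ifs <;> norm_num

lemma ra_ch (i : Fin n) : ra E B i = ∑ j, ch E i j * B i j := by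
  unfold ra ch
  apply sum_congr rfl
  intro j _
  by_cases hj : E i j = 0
  · rw [if_pos hj, if_pos hj, one_mul]
  · rw [if_neg hj, if_neg hj, zero_mul]

lemma cb_ch (j : Fin n) : cb E B j = ∑ i, ch E i j * B i j := by
  unfold cb ch
  apply sum_congr rfl
  intro i _
  by_cases hj : E i j = 0
  · rw [if_pos hj, if_pos hj, one_mul]
  · rw [if_neg hj, if_neg hj, zero_mul]

lemma sm_ch : sm E (B' * B) = ∑ l, ∑ i, ∑ j, ch E i j * (B' i l * B l j) := by
  rw [← sum_ra]
  simp only [ra_ch, Matrix.mul_apply, mul_sum]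
  rw [sum_comm' (s := univ) (t := fun _ => univ) (t' := univ) (s' := fun _ => univ) (by simp)]
  rw [sum_comm]
  rw [sum_congr rfl (fun i _ => sum_comm)]
  rw [sum_comm]

lemma ch_lb (h : Cl E) (i l j : Fin n) :
    (1 - ch E i l) * ch E l j + ch E i l * (1 - ch E l j) ≤ ch E i j := by
  by_cases h1 : E i l = 0
  · by_cases h2 : E l j = 0
    · have e1 : ch E i l = 1 := by simp [ch, h1]
      have e2 : ch E l j = 1 := by simp [ch, h2]
      rw [e1, e2]
      have := ch_nonneg (E := E) i j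
      linarith
    · have e1 : ch E i l = 1 := by simp [ch, h1]
      have e2 : ch E l j = 0 := by simp [ch, h2]
      have h3 : E i j = 0 := by
        rw [h.sym i j, ← (h.cl l j h2).2.2 i, h.sym l i, h1]
      have e3 : ch E i j = 1 := by simp [ch, h3]
      rw [e1, e2, e3]; norm_num
  · have h3 : E i j = E l j := (h.cl i l h1).2.2 j
    have e1 : ch E i l = 0 := by simp [ch, h1]
    have e3 : ch E i j = ch E l j := by simp [ch, h3]
    rw [e1, e3]; linarith

lemma ch_ub (h : Cl E) (i l j : Fin n) : ch E i j ≤ ch E i l + ch E l j := by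
  by_cases h1 : E i l = 0
  · have e1 : ch E i l = 1 := by simp [ch, h1]
    have e2 := ch_nonneg (E := E) l j
    have e3 : ch E i j ≤ 1 := by unfold ch; split_ifs <;> norm_num
    linarith
  · have h3 : E i j = E l j := (h.cl i l h1).2.2 j
    have e1 : ch E i l = 0 := by simp [ch, h1]
    have e3 : ch E i j = ch E l j := by simp [ch, h3]
    rw [e1, e3]; linarith

lemma sm_mul_lb (h : Cl E) (hB : DS B) (hB' : DS B') (hd : ∀ i j, |B i j - E i j| ≤ δ)
    (hd' : ∀ i j, |B' i j - E i j| ≤ δ) (hδ : 0 ≤ δ) :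
    (sm E B + sm E B') * (1 - n * δ) ≤ sm E (B' * B) := by
  have h1 : ∀ l, (1 - cb E B' l) * ra E B l + cb E B' l * (1 - ra E B l) ≤
      ∑ i, ∑ j, ch E i j * (B' i l * B l j) := by
    intro l
    have h2 : (1 - cb E B' l) * ra E B l + cb E B' l * (1 - ra E B l) =
        ∑ i, ∑ j, ((1 - ch E i l) * ch E l j + ch E i l * (1 - ch E l j)) * (B' i l * B l j) := by
      have e1 : 1 - cb E B' l = ∑ i, (1 - ch E i l) * B' i l := by
        have := hB'.2.2 l
        simp only [cb_ch, sub_mul, sum_sub_distrib, one_mul, this]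
      have e2 : 1 - ra E B l = ∑ j, (1 - ch E l j) * B l j := by
        have := hB.2.1 l
        simp only [ra_ch, sub_mul, sum_sub_distrib, one_mul, this]
      rw [e1, e2, cb_ch, ra_ch, sum_mul_sum, sum_mul_sum, ← sum_add_distrib]
      apply sum_congr rfl
      intro i _
      rw [← sum_add_distrib]
      apply sum_congr rfl
      intro j _
      ring
    rw [h2]
    apply sum_le_sum
    intro i _
    apply sum_le_sum
    intro j _
    exact mul_le_mul_of_nonneg_right (ch_lb h i l j) (mul_nonneg (hB'.1 i l) (hB.1 l j))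
  rw [sm_ch]
  refine le_trans ?_ (sum_le_sum (fun l _ => h1 l))
  have h3 : (sm E B + sm E B') * (1 - n * δ) =
      ∑ l, ((1 - n * δ) * ra E B l + cb E B' l * (1 - n * δ)) := by
    rw [sum_add_distrib, ← mul_sum, ← sum_mul, sum_ra, sum_cb]
    ring
  rw [h3]
  apply sum_le_sum
  intro l _
  have h4 := ra_nonneg (E := E) hB l
  have h5 := cb_nonneg (E := E) hB' l
  have h6 := ra_le hd hδ l
  have h7 := cb_le hd' hδ l
  exact add_le_add (mul_le_mul_of_nonneg_right (by linarith) h4)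
    (mul_le_mul_of_nonneg_left (by linarith) h5)

lemma sm_mul_ub (h : Cl E) (hB : DS B) (hB' : DS B') :
    sm E (B' * B) ≤ sm E B + sm E B' := by
  rw [sm_ch]
  have h1 : sm E B + sm E B' = ∑ l, (cb E B' l + ra E B l) := by
    rw [sum_add_distrib, sum_ra, sum_cb]
    ring
  rw [h1]
  apply sum_le_sum
  intro l _
  have h2 : cb E B' l + ra E B l = ∑ i, ∑ j, (ch E i l + ch E l j) * (B' i l * B l j) := by
    have e1 : cb E B' l = ∑ i, ∑ j, ch E i l * (B' i l * B l j) := by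
      rw [cb_ch]
      apply sum_congr rfl
      intro i _
      rw [← mul_sum, ← mul_sum, hB.2.1, mul_one]
    have e2 : ra E B l = ∑ i, ∑ j, ch E l j * (B' i l * B l j) := by
      rw [sum_comm, ra_ch]
      apply sum_congr rfl
      intro j _
      rw [← mul_sum, ← sum_mul, hB'.2.2, one_mul]
    rw [e1, e2, ← sum_add_distrib]
    apply sum_congr rfl
    intro i _
    rw [← sum_add_distrib]
    apply sum_congr rfl
    intro j _
    ring
  rw [h2]
  apply sum_le_sum
  intro i _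
  apply sum_le_sum
  intro j _
  exact mul_le_mul_of_nonneg_right (ch_ub h i l j) (mul_nonneg (hB'.1 i l) (hB.1 l j))

lemma V_mul (h : Cl E) (hB : DS B) (hB' : DS B') {i j : Fin n} (hij : E i j ≠ 0) :
    V E (B' * B) i j = - ra E B' i - cb E B j + ∑ l, E i l * (V E B' i l * V E B l j) +
      1 / E i i * ∑ l, ch E i l * (B' i l * B l j) := by
  have hp := (h.pos i).ne'
  have hrow := h.cl i j hij
  have h1 : 1 / E i i * ∑ l, B' i l * B l j = ∑ l, (E i l + E i l * V E B' i l +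
      E l j * V E B l j + E i l * (V E B' i l * V E B l j) +
      1 / E i i * (ch E i l * (B' i l * B l j))) := by
    rw [mul_sum]
    apply sum_congr rfl
    intro l _
    by_cases hl : E i l = 0
    · have e1 : ch E i l = 1 := by simp [ch, hl]
      have e2 : E l j = 0 := by
        rw [h.sym l j, ← hrow.2.2 l, hl]
      rw [hl, e1, e2]; ring
    · have e1 : ch E i l = 0 := by simp [ch, hl]
      have e2 : E l j = E i i := by
        rw [h.sym l j, ← hrow.2.2 l, (h.cl i l hl).1]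
      have e3 := (h.cl i l hl).2.1
      rw [e1, e2, (h.cl i l hl).1]
      unfold V
      rw [e3]
      field_simp
      ring
  have h2 : V E (B' * B) i j = 1 / E i i * (∑ l, B' i l * B l j) - 1 := by
    unfold V
    rw [Matrix.mul_apply]
    ring
  rw [h2, h1, sum_add_distrib, sum_add_distrib, sum_add_distrib, sum_add_distrib,
    h.ds.2.1, row_V h hB', col_V h hB, ← mul_sum]
  ring

lemma jensen (h : Cl E) (i : Fin n) (x : Fin n → ℝ) :
    (∑ l, E i l * x l) ^ 2 ≤ ∑ l, E i l * x l ^ 2 := by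
  have h1 : 0 ≤ ∑ l, E i l * (x l - ∑ l, E i l * x l) ^ 2 :=
    sum_nonneg fun l _ => mul_nonneg (h.ds.1 i l) (sq_nonneg _)
  set m := ∑ l, E i l * x l with hm
  have h2 : ∑ l, E i l * (x l - m) ^ 2 = ∑ l, E i l * x l ^ 2 - 2 * m * m + m ^ 2 * 1 := by
    have e1 : ∀ l, E i l * (x l - m) ^ 2 = E i l * x l ^ 2 - 2 * m * (E i l * x l) +
        m ^ 2 * E i l := fun l => by ring
    simp only [e1, sum_add_distrib, sum_sub_distrib, ← mul_sum, h.ds.2.1 i, ← hm]
  rw [h2] at h1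
  linarith

lemma V_mul_sq (h : Cl E) (hB : DS B) (hB' : DS B') (hd : ∀ i j, |B i j - E i j| ≤ δ)
    (hδ : 0 ≤ δ) {i j : Fin n} (hij : E i j ≠ 0) :
    V E (B' * B) i j ^ 2 ≤ 3 * ((1 + n) ^ 2 * ra E B' i ^ 2 + cb E B j ^ 2 +
      (n * δ) ^ 2 * ∑ l, E i l * V E B' i l ^ 2) := by
  have hn : (0 : ℝ) ≤ n := Nat.cast_nonneg n
  have hnd : 0 ≤ n * δ := mul_nonneg hn hδ
  rw [V_mul h hB hB' hij]
  set x := ra E B' i with hx
  set y := cb E B j with hy
  set z := ∑ l, E i l * (V E B' i l * V E B l j) with hz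
  set w := 1 / E i i * ∑ l, ch E i l * (B' i l * B l j) with hw
  have hx0 : 0 ≤ x := ra_nonneg hB' i
  have hy0 : 0 ≤ y := cb_nonneg hB j
  have hp := h.pos i
  have hw0 : 0 ≤ w := mul_nonneg (by positivity) (sum_nonneg fun l _ =>
    mul_nonneg (ch_nonneg i l) (mul_nonneg (hB'.1 i l) (hB.1 l j)))
  have hwx : w ≤ n * x := by
    have h1 : ∑ l, ch E i l * (B' i l * B l j) ≤ x := by
      rw [hx, ra_ch]
      apply sum_le_sum
      intro l _
      apply mul_le_mul_of_nonneg_left _ (ch_nonneg i l)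
      have := mul_le_mul_of_nonneg_left (DS.le_one hB l j) (hB'.1 i l)
      linarith
    have h2 : 1 / E i i ≤ n := by
      rw [div_le_iff₀ hp]
      exact h.one_le i
    rw [hw]
    calc _ ≤ 1 / E i i * x := mul_le_mul_of_nonneg_left h1 (by positivity)
      _ ≤ n * x := mul_le_mul_of_nonneg_right h2 hx0
  have hz2 : z ^ 2 ≤ (n * δ) ^ 2 * ∑ l, E i l * V E B' i l ^ 2 := by
    have h1 : |z| ≤ n * δ * ∑ l, E i l * |V E B' i l| := by
      rw [hz, mul_sum]
      refine (abs_sum_le_sum_abs _ _).trans ?_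
      apply sum_le_sum
      intro l _
      rw [abs_mul, abs_mul, abs_of_nonneg (h.ds.1 i l)]
      by_cases hl : E i l = 0
      · rw [hl]; simp
      · have hlj : E l j ≠ 0 := by
          rw [← (h.cl i l hl).2.2 j]; exact hij
        have h3 := V_le h hd hδ hlj
        have h4 : E i l * (|V E B' i l| * |V E B l j|) ≤ E i l * (|V E B' i l| * (n * δ)) :=
          mul_le_mul_of_nonneg_left (mul_le_mul_of_nonneg_left h3 (abs_nonneg _)) (h.ds.1 i l)
        linarith
    have h2 : z ^ 2 = |z| ^ 2 := (sq_abs z).symm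
    rw [h2]
    calc |z| ^ 2 ≤ (n * δ * ∑ l, E i l * |V E B' i l|) ^ 2 :=
          pow_le_pow_left₀ (abs_nonneg _) h1 2
      _ = (n * δ) ^ 2 * (∑ l, E i l * |V E B' i l|) ^ 2 := by ring
      _ ≤ (n * δ) ^ 2 * ∑ l, E i l * |V E B' i l| ^ 2 :=
          mul_le_mul_of_nonneg_left (jensen h i _) (sq_nonneg _)
      _ = _ := by simp only [sq_abs]
  have hxw : (w - x) ^ 2 ≤ (1 + n) ^ 2 * x ^ 2 := by
    have h1 : |w - x| ≤ (1 + n) * x := by
      rw [abs_le]
      constructor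
      · nlinarith
      · nlinarith
    have h2 : (w - x) ^ 2 = |w - x| ^ 2 := (sq_abs _).symm
    rw [h2, ← mul_pow]
    exact pow_le_pow_left₀ (abs_nonneg _) h1 2
  have h5 : (-x - y + z + w) ^ 2 ≤ 3 * ((w - x) ^ 2 + y ^ 2 + z ^ 2) := by
    nlinarith [sq_nonneg ((w - x) + y), sq_nonneg ((w - x) - z), sq_nonneg (y + z)]
  linarith

lemma qm_mul_ub (h : Cl E) (hB : DS B) (hB' : DS B') (hd : ∀ i j, |B i j - E i j| ≤ δ)
    (hd' : ∀ i j, |B' i j - E i j| ≤ δ) (hδ : 0 ≤ δ) :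
    qm E (B' * B) ≤ 3 * ((1 + n) ^ 2 * (n * δ * sm E B') + n * δ * sm E B +
      (n * δ) ^ 2 * qm E B') := by
  have h1 : ∀ i j, E i j * V E (B' * B) i j ^ 2 ≤
      E i j * (3 * ((1 + n) ^ 2 * ra E B' i ^ 2 + cb E B j ^ 2 +
      (n * δ) ^ 2 * ∑ l, E i l * V E B' i l ^ 2)) := by
    intro i j
    by_cases hij : E i j = 0
    · rw [hij]; simp
    · exact mul_le_mul_of_nonneg_left (V_mul_sq h hB hB' hd hδ hij) (h.ds.1 i j)
  rw [qm_eq]
  refine (sum_le_sum fun i _ => sum_le_sum fun j _ => h1 i j).trans ?_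
  have h2 : ∑ i, ∑ j, E i j * (3 * ((1 + n) ^ 2 * ra E B' i ^ 2 + cb E B j ^ 2 +
      (n * δ) ^ 2 * ∑ l, E i l * V E B' i l ^ 2)) =
      3 * ((1 + n) ^ 2 * ∑ i, ra E B' i ^ 2 + ∑ j, cb E B j ^ 2 + (n * δ) ^ 2 * qm E B') := by
    have e1 : ∀ i j, E i j * (3 * ((1 + n) ^ 2 * ra E B' i ^ 2 + cb E B j ^ 2 +
      (n * δ) ^ 2 * ∑ l, E i l * V E B' i l ^ 2)) =
      3 * ((1 + n) ^ 2 * ra E B' i ^ 2 + (n * δ) ^ 2 * ∑ l, E i l * V E B' i l ^ 2) * E i j +
        3 * (E i j * cb E B j ^ 2) := by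
      intro i j; ring
    simp only [e1, sum_add_distrib, ← mul_sum, h.ds.2.1, mul_one]
    rw [sum_comm (f := fun i j => E i j * cb E B j ^ 2)]
    have e2 : ∑ j, ∑ i, E i j * cb E B j ^ 2 = ∑ j, cb E B j ^ 2 := by
      apply sum_congr rfl
      intro j _
      rw [← sum_mul, h.ds.2.2, one_mul]
    rw [e2, qm_eq]
    ring
  rw [h2]
  have h3 : ∑ i, ra E B' i ^ 2 ≤ n * δ * sm E B' := by
    rw [← sum_ra, mul_sum]
    apply sum_le_sum
    intro i _
    have := ra_nonneg (E := E) hB' i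
    have := ra_le hd' hδ i
    nlinarith
  have h4 : ∑ j, cb E B j ^ 2 ≤ n * δ * sm E B := by
    rw [← sum_cb, mul_sum]
    apply sum_le_sum
    intro i _
    have := cb_nonneg (E := E) hB i
    have := cb_le hd hδ i
    nlinarith
  have h5 : (1 + (n : ℝ)) ^ 2 * ∑ i, ra E B' i ^ 2 ≤ (1 + n) ^ 2 * (n * δ * sm E B') :=
    mul_le_mul_of_nonneg_left h3 (sq_nonneg _)
  linarith

theorem t_upr : S_idem → S_avg → S_tay → S_upr := by
  intro hid hav htay n E hE h2
  have h := Cl.of hid hE h2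
  obtain ⟨K, hK, hKt⟩ := htay n
  have hper := perm_pos h
  have hn : (0 : ℝ) ≤ n := Nat.cast_nonneg n
  have hf : (0 : ℝ) ≤ (n.factorial : ℝ) * (2 * n ^ 2) / E.permanent := by positivity
  refine ⟨n + (n + K) * (3 * (1 + n) ^ 2 * n) + (n.factorial : ℝ) * (2 * n ^ 2) / E.permanent + 1,
    by positivity, ?_⟩
  intro B B' δ hB hB' hnδ hd hd'
  rcases Nat.eq_zero_or_pos n with hn0 | hn0
  · subst hn0
    simp [sm, qm, Matrix.permanent]
  have hδ : 0 ≤ δ := (abs_nonneg _).trans (hd ⟨0, hn0⟩ ⟨0, hn0⟩)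
  have hnd : 0 ≤ n * δ := mul_nonneg hn hδ
  have hM := ds_mul hB' hB
  have hMd := mul_close h2 hE hB' hd hd'
  have h3 := perm_ub h hM
  have h4 := young_ub h h2 hav hK hKt hM hMd (by linarith) (by linarith)
  have h5 := sm_mul_lb h hB hB' hd hd' hδ
  have h6 := sm_mul_ub h hB hB'
  have h7 := qm_mul_ub h hB hB' hd hd' hδ
  have hs0 : 0 ≤ sm E B := sm_nonneg hB
  have hs0' : 0 ≤ sm E B' := sm_nonneg hB'
  have hsM : 0 ≤ sm E (B' * B) := sm_nonneg hM
  have hq0 : 0 ≤ qm E B := qm_nonneg hE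
  have hq0' : 0 ≤ qm E B' := qm_nonneg hE
  have h8 := sm_le (E := E) hd hδ
  have h9 := sm_le (E := E) hd' hδ
  set s := sm E B with hs
  set s' := sm E B' with hs'
  set q := qm E B with hq
  set q' := qm E B' with hq'
  set sM := sm E (B' * B) with hsMdef
  set qM := qm E (B' * B) with hqMdef
  set P := E.permanent with hPdef
  have hT : 0 ≤ s + s' + q + q' := by linarith
  have h10 : sM ^ 2 ≤ δ * (2 * n ^ 2) * (s + s') := by
    have e1 : sM ^ 2 ≤ (s + s') * (s + s') := by nlinarith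
    have e2 : (s + s') * (s + s') ≤ (n * (n * δ) + n * (n * δ)) * (s + s') :=
      mul_le_mul_of_nonneg_right (by linarith) (by linarith)
    calc sM ^ 2 ≤ _ := e1
      _ ≤ _ := e2
      _ = δ * (2 * n ^ 2) * (s + s') := by ring
  have h11 : qM ≤ 3 * (1 + n) ^ 2 * n * δ * (s + s' + q + q') := by
    have e1 : (n * δ) ^ 2 * q' ≤ n * δ * q' := by
      apply mul_le_mul_of_nonneg_right _ hq0'
      nlinarith
    have e2 : (1 : ℝ) ≤ (1 + n) ^ 2 := by nlinarith
    have e3 : n * δ * s ≤ (1 + n) ^ 2 * (n * δ * s) := by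
      have := mul_nonneg hnd hs0
      nlinarith
    have e4 : n * δ * q' ≤ (1 + n) ^ 2 * (n * δ * q') := by
      have := mul_nonneg hnd hq0'
      nlinarith
    have e5 : 0 ≤ (1 + (n : ℝ)) ^ 2 * (n * δ * q) := by positivity
    calc qM ≤ _ := h7
      _ ≤ 3 * ((1 + n) ^ 2 * (n * δ * s') + (1 + n) ^ 2 * (n * δ * s) +
          (1 + n) ^ 2 * (n * δ * q') + (1 + n) ^ 2 * (n * δ * q)) := by linarith
      _ = _ := by ring
  have h12 : P * (1 - sM + (n + K) * qM) ≤ P * (1 - (s + s') * (1 - n * δ) +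
      (n + K) * (3 * (1 + n) ^ 2 * n * δ * (s + s' + q + q'))) := by
    apply mul_le_mul_of_nonneg_left _ hper.le
    have := mul_le_mul_of_nonneg_left h11 (by positivity : (0 : ℝ) ≤ n + K)
    linarith
  have h13 : (n.factorial : ℝ) * sM ^ 2 ≤ (n.factorial : ℝ) * (δ * (2 * n ^ 2) * (s + s')) :=
    mul_le_mul_of_nonneg_left h10 (by positivity)
  have h14 : (n.factorial : ℝ) * (δ * (2 * n ^ 2) * (s + s')) ≤
      P * ((n.factorial : ℝ) * (2 * n ^ 2) / P * δ * (s + s' + q + q')) := by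
    have e1 : P * ((n.factorial : ℝ) * (2 * n ^ 2) / P * δ * (s + s' + q + q')) =
        (n.factorial : ℝ) * (δ * (2 * n ^ 2) * (s + s' + q + q')) := by
      field_simp
    rw [e1]
    apply mul_le_mul_of_nonneg_left _ (by positivity)
    apply mul_le_mul_of_nonneg_left _ (by positivity)
    linarith
  have h15 : n * δ * (s + s') ≤ n * δ * (s + s' + q + q') :=
    mul_le_mul_of_nonneg_left (by linarith) hnd
  have h16 : 0 ≤ δ * (s + s' + q + q') := mul_nonneg hδ hT
  calc (B' * B).permanent ≤ _ := h3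
    _ ≤ P * (1 - (s + s') * (1 - n * δ) + (n + K) * (3 * (1 + n) ^ 2 * n * δ * (s + s' + q + q')))
        + P * ((n.factorial : ℝ) * (2 * n ^ 2) / P * δ * (s + s' + q + q')) := by linarith
    _ = P * (1 - s - s' + n * δ * (s + s') +
        (n + K) * (3 * (1 + n) ^ 2 * n * δ * (s + s' + q + q'))
        + (n.factorial : ℝ) * (2 * n ^ 2) / P * δ * (s + s' + q + q')) := by ring
    _ ≤ P * (1 - s - s' + (n + (n + K) * (3 * (1 + n) ^ 2 * n) +
        (n.factorial : ℝ) * (2 * n ^ 2) / P + 1) * δ * (s + s' + q + q')) := by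
      apply mul_le_mul_of_nonneg_left _ hper.le
      linarith

end Pool.Agent.Y505.FG
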